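import Mathlib

/-!
# Rational numbers `1728 + t²`: valuations
-/

set_option autoImplicit false

namespace Pool.Agent.H72.SQ

/-- `1728 + t² = A / v²` with `A = 1728 v² + u²`, `t = u / v` -/
theorem sq_num (t : ℚ) : (1728 + t ^ 2 : ℚ) =
    ((1728 * (t.den : ℤ) ^ 2 + t.num ^ 2 : ℤ) : ℚ) / ((t.den ^ 2 : ℕ) : ℚ) := by
  have hv : (t.den : ℚ) ≠ 0 := by exact_mod_cast t.den_nz
  have ht : t = t.num / t.den := (Rat.num_div_den t).symm
  push_cast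
  conv_lhs => rw [ht]
  field_simp

theorem A_pos (t : ℚ) : 0 < 1728 * (t.den : ℤ) ^ 2 + t.num ^ 2 := by
  have hv : 0 < (t.den : ℤ) := by exact_mod_cast t.den_pos
  positivity

theorem sq_val (t : ℚ) (r : ℕ) [Fact r.Prime] : padicValRat r (1728 + t ^ 2) =
    padicValInt r (1728 * (t.den : ℤ) ^ 2 + t.num ^ 2) - 2 * padicValNat r t.den := by
  have hA := (A_pos t).ne'
  have hv : ((t.den ^ 2 : ℕ) : ℚ) ≠ 0 := by
    exact_mod_cast pow_ne_zero 2 t.den_nz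
  rw [sq_num, padicValRat.div (by exact_mod_cast hA) hv, padicValRat.of_int, padicValRat.of_nat,
    padicValNat.pow t.den 2]
  push_cast
  ring

theorem cop (t : ℚ) {r : ℕ} (hr : r.Prime) (h : r ∣ t.den) : ¬ (r : ℤ) ∣ t.num := by
  intro h1
  have h2 : r ∣ t.num.natAbs := Int.natCast_dvd.1 h1
  have h3 : r ∣ 1 := by
    have h4 := t.reduced
    rw [Nat.Coprime] at h4
    rw [← h4]
    exact Nat.dvd_gcd h2 h
  exact hr.one_lt.ne' (Nat.dvd_one.1 h3)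

theorem not_dvd_A (t : ℚ) {r : ℕ} (hr : r.Prime) (h : r ∣ t.den) :
    ¬ (r : ℤ) ∣ 1728 * (t.den : ℤ) ^ 2 + t.num ^ 2 := by
  intro h1
  have h2 : (r : ℤ) ∣ (t.den : ℤ) := by exact_mod_cast h
  have h3 : (r : ℤ) ∣ t.num ^ 2 := by
    have := dvd_sub h1 (dvd_mul_of_dvd_right (dvd_pow h2 two_ne_zero) 1728)
    simpa using this
  exact cop t hr h ((Nat.prime_iff_prime_int.1 hr).dvd_of_dvd_pow h3)

theorem sq_val_den (t : ℚ) (r : ℕ) [Fact r.Prime] (h : r ∣ t.den) :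
    padicValRat r (1728 + t ^ 2) = - 2 * padicValNat r t.den ∧ 0 < padicValNat r t.den := by
  have hr : r.Prime := Fact.out
  rw [sq_val, padicValInt.eq_zero_of_not_dvd (not_dvd_A t hr h)]
  refine ⟨by push_cast; ring, ?_⟩
  exact Nat.pos_of_ne_zero (dvd_iff_padicValNat_ne_zero t.den_nz |>.1 h)

theorem sq_val_nden (t : ℚ) (r : ℕ) [Fact r.Prime] (h : ¬ r ∣ t.den) :
    padicValRat r (1728 + t ^ 2) = padicValInt r (1728 * (t.den : ℤ) ^ 2 + t.num ^ 2) := by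
  rw [sq_val, padicValNat.eq_zero_of_not_dvd h]
  push_cast
  ring

theorem nden_of_nonneg (t : ℚ) (r : ℕ) [Fact r.Prime] (h : 0 ≤ padicValRat r (1728 + t ^ 2)) :
    ¬ r ∣ t.den := by
  intro h1
  obtain ⟨h2, h3⟩ := sq_val_den t r h1
  rw [h2] at h
  have : (0 : ℤ) < padicValNat r t.den := by exact_mod_cast h3
  linarith

/-- all exponents divisible by `p`: a `p`-th power -/
theorem exists_pow (v p : ℕ) (hv : v ≠ 0)
    (h : ∀ r : ℕ, r.Prime → p ∣ v.factorization r) : ∃ c : ℕ, v = c ^ p := by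
  refine ⟨v.factorization.prod fun r e => r ^ (e / p), ?_⟩
  conv_lhs => rw [← Nat.prod_factorization_pow_eq_self hv]
  rw [Finsupp.prod, Finsupp.prod, ← Finset.prod_pow]
  refine Finset.prod_congr rfl fun r hr => ?_
  have hrp : r.Prime := Nat.prime_of_mem_primeFactors (by simpa using hr)
  rw [← pow_mul, Nat.div_mul_cancel (h r hrp)]

/-- the `2`-adic condition -/
theorem two_adic (u v : ℤ) (hv : v % 2 = 1) (h0 : 1728 * v ^ 2 + u ^ 2 ≠ 0)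
    (h1 : 0 < padicValInt 2 (1728 * v ^ 2 + u ^ 2))
    (h3 : 3 ∣ padicValInt 2 (1728 * v ^ 2 + u ^ 2)) : (16 : ℤ) ∣ u := by
  have hF : Fact (Nat.Prime 2) := ⟨Nat.prime_two⟩
  obtain ⟨A, hA⟩ : ∃ A, A = 1728 * v ^ 2 + u ^ 2 := ⟨_, rfl⟩
  rw [← hA] at h0 h1 h3
  have hdv : ∀ k : ℕ, ((2 : ℕ) : ℤ) ^ k ∣ A ↔ k ≤ padicValInt 2 A := by
    intro k
    rw [padicValInt_dvd_iff]
    constructor
    · rintro (h | h)
      · exact absurd h h0
      · exact h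
    · exact Or.inr
  have hk3 : 3 ≤ padicValInt 2 A := by omega
  have a3 : (8 : ℤ) ∣ A := by simpa using (hdv 3).2 hk3
  obtain ⟨w, hw⟩ : ∃ w, v = 2 * w + 1 := ⟨v / 2, by omega⟩
  have hv2 : ∃ y, v ^ 2 = 8 * y + 1 := by
    have h4 : (2 : ℤ) ∣ w * (w + 1) := by
      rcases Int.even_or_odd w with h | h
      · exact dvd_mul_of_dvd_left h.two_dvd _
      · exact dvd_mul_of_dvd_right h.add_one.two_dvd _
    obtain ⟨y, hy⟩ := h4
    exact ⟨y, by rw [hw]; linear_combination 4 * hy⟩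
  obtain ⟨y, hy⟩ := hv2
  -- `4 ∣ u`
  have b1 : (2 : ℤ) ∣ u := by
    have : (2 : ℤ) ∣ u ^ 2 := by
      obtain ⟨c, hc⟩ := a3
      exact ⟨4 * c - 864 * v ^ 2, by linear_combination -hA + hc⟩
    exact Int.prime_two.dvd_of_dvd_pow this
  obtain ⟨u1, rfl⟩ := b1
  have b2 : (2 : ℤ) ∣ u1 := by
    have : (2 : ℤ) ∣ u1 ^ 2 := by
      obtain ⟨c, hc⟩ := a3
      refine ⟨c - 216 * v ^ 2, ?_⟩
      have : 4 * u1 ^ 2 = 4 * (2 * (c - 216 * v ^ 2)) := by linear_combination -hA + hc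
      linarith
    exact Int.prime_two.dvd_of_dvd_pow this
  obtain ⟨u2, rfl⟩ := b2
  have hA2 : A = 16 * (108 * v ^ 2 + u2 ^ 2) := by rw [hA]; ring
  have hk6 : 6 ≤ padicValInt 2 A := by
    have : 4 ≤ padicValInt 2 A := by
      rw [← hdv 4]
      exact ⟨108 * v ^ 2 + u2 ^ 2, by rw [hA2]; norm_num⟩
    omega
  have a6 : (64 : ℤ) ∣ A := by simpa using (hdv 6).2 hk6
  have b3 : (2 : ℤ) ∣ u2 := by
    have : (2 : ℤ) ∣ u2 ^ 2 := by
      obtain ⟨c, hc⟩ := a6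
      refine ⟨2 * c - 54 * v ^ 2, ?_⟩
      have : 16 * u2 ^ 2 = 16 * (2 * (2 * c - 54 * v ^ 2)) := by linear_combination -hA2 + hc
      linarith
    exact Int.prime_two.dvd_of_dvd_pow this
  obtain ⟨u3, rfl⟩ := b3
  have hA3 : A = 64 * (27 * v ^ 2 + u3 ^ 2) := by rw [hA2]; ring
  rcases Int.even_or_odd u3 with h | h
  · obtain ⟨z, hz⟩ := h
    exact ⟨z, by rw [hz]; ring⟩
  · exfalso
    obtain ⟨z, hz⟩ := h
    have h4 : (2 : ℤ) ∣ z * (z + 1) := by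
      rcases Int.even_or_odd z with h | h
      · exact dvd_mul_of_dvd_left h.two_dvd _
      · exact dvd_mul_of_dvd_right h.add_one.two_dvd _
    obtain ⟨x, hx⟩ := h4
    have e : A = 256 * (7 + 2 * (27 * y + x)) := by
      rw [hA3, hy, hz]
      linear_combination 256 * hx
    have h8 : 8 ≤ padicValInt 2 A := by
      rw [← hdv 8]
      exact ⟨7 + 2 * (27 * y + x), by rw [e]; norm_num⟩
    have h9 : ¬ 9 ≤ padicValInt 2 A := by
      rw [← hdv 9]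
      rintro ⟨c, hc⟩
      norm_num at hc
      omega
    omega

/-- the `3`-adic condition -/
theorem three_adic (u v : ℤ) (h0 : 1728 * v ^ 2 + u ^ 2 ≠ 0)
    (h1 : 0 < padicValInt 3 (1728 * v ^ 2 + u ^ 2))
    (h3 : 3 ∣ padicValInt 3 (1728 * v ^ 2 + u ^ 2)) : (9 : ℤ) ∣ u := by
  have hF : Fact (Nat.Prime 3) := ⟨Nat.prime_three⟩
  have a3 : (27 : ℤ) ∣ 1728 * v ^ 2 + u ^ 2 := by
    have : ((3 : ℕ) : ℤ) ^ 3 ∣ 1728 * v ^ 2 + u ^ 2 := by
      rw [padicValInt_dvd_iff]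
      right
      omega
    simpa using this
  obtain ⟨c, hc⟩ := a3
  have b1 : (3 : ℤ) ∣ u := Int.prime_three.dvd_of_dvd_pow (n := 2)
    ⟨9 * c - 576 * v ^ 2, by linear_combination hc⟩
  obtain ⟨u1, rfl⟩ := b1
  have b2 : (3 : ℤ) ∣ u1 := by
    refine Int.prime_three.dvd_of_dvd_pow (n := 2) ⟨c - 64 * v ^ 2, ?_⟩
    have : 9 * u1 ^ 2 = 9 * (3 * (c - 64 * v ^ 2)) := by linear_combination hc
    linarith
  obtain ⟨u2, rfl⟩ := b2
  exact ⟨u2, by ring⟩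

/-- primes dividing the numerator -/
theorem leg_A (t : ℚ) (r : ℕ) [Fact r.Prime] (h5 : 5 ≤ r)
    (h : (r : ℤ) ∣ 1728 * (t.den : ℤ) ^ 2 + t.num ^ 2) : legendreSym r (-3) = 1 := by
  have hr : r.Prime := Fact.out
  have hpr : Prime (r : ℤ) := Nat.prime_iff_prime_int.1 hr
  have hv : ¬ r ∣ t.den := fun h1 => not_dvd_A t hr h1 h
  have hv' : ¬ (r : ℤ) ∣ (t.den : ℤ) := by exact_mod_cast hv
  have h24 : ¬ (r : ℤ) ∣ 24 := by
    intro h1
    have h2 : r ∣ 24 := by exact_mod_cast h1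
    have h3 : r ∣ 2 ^ 3 * 3 := by simpa using h2
    rcases (Nat.Prime.dvd_mul hr).1 h3 with h4 | h4
    · have := (Nat.prime_dvd_prime_iff_eq hr Nat.prime_two).1 (hr.dvd_of_dvd_pow h4)
      omega
    · have := (Nat.prime_dvd_prime_iff_eq hr Nat.prime_three).1 h4
      omega
  have hx : ¬ (r : ℤ) ∣ 24 * (t.den : ℤ) := fun h1 => (hpr.dvd_or_dvd h1).elim h24 hv'
  have hu : ¬ (r : ℤ) ∣ t.num := by
    intro h1
    have h2 : (r : ℤ) ∣ 3 * (24 * (t.den : ℤ)) ^ 2 := by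
      have e : 3 * (24 * (t.den : ℤ)) ^ 2 = (1728 * (t.den : ℤ) ^ 2 + t.num ^ 2) - t.num ^ 2 := by
        ring
      rw [e]
      exact dvd_sub h (dvd_pow h1 two_ne_zero)
    rcases hpr.dvd_or_dvd h2 with h3 | h3
    · exact h24 (h3.trans ⟨8, by norm_num⟩)
    · exact hx (hpr.dvd_of_dvd_pow h3)
  have e1 : ((-3 * (24 * (t.den : ℤ)) ^ 2 : ℤ) : ZMod r) = ((t.num ^ 2 : ℤ) : ZMod r) := by
    rw [← sub_eq_zero, ← Int.cast_sub, ZMod.intCast_zmod_eq_zero_iff_dvd]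
    have e : -3 * (24 * (t.den : ℤ)) ^ 2 - t.num ^ 2 =
        -(1728 * (t.den : ℤ) ^ 2 + t.num ^ 2) := by ring
    rw [e]
    exact (dvd_neg).2 h
  have n1 : ((24 * (t.den : ℤ) : ℤ) : ZMod r) ≠ 0 := by
    rw [Ne, ZMod.intCast_zmod_eq_zero_iff_dvd]
    exact hx
  have n2 : ((t.num : ℤ) : ZMod r) ≠ 0 := by
    rw [Ne, ZMod.intCast_zmod_eq_zero_iff_dvd]
    exact hu
  have h6 : legendreSym r (-3 * (24 * (t.den : ℤ)) ^ 2) = legendreSym r (t.num ^ 2) := by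
    rw [legendreSym, legendreSym, e1]
  rw [legendreSym.mul, legendreSym.sq_one' r n1, legendreSym.sq_one' r n2, mul_one] at h6
  exact h6

theorem dvd_two_mul {p n : ℕ} (hp : p.Prime) (hp2 : 3 ≤ p) (h : (p : ℤ) ∣ -2 * (n : ℤ)) :
    p ∣ n := by
  have h1 : (p : ℤ) ∣ ((2 * n : ℕ) : ℤ) := by
    obtain ⟨x, hx⟩ := h
    refine ⟨-x, ?_⟩
    push_cast
    linear_combination -hx
  have h2 : p ∣ 2 * n := by exact_mod_cast h1
  rcases (Nat.Prime.dvd_mul hp).1 h2 with h3 | h3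
  · have := Nat.le_of_dvd (by norm_num) h3
    omega
  · exact h3

theorem N_ne {c n k : ℕ} (hc : c ≠ 0) : c ^ k + 12 * n ^ 2 ≠ 0 := by
  have : 0 < c ^ k := Nat.pos_of_ne_zero (pow_ne_zero _ hc)
  positivity

theorem N_cop {c n k r : ℕ} (hr : r.Prime) (h12 : r ∣ 12) (hc : ¬ r ∣ c) :
    ¬ r ∣ c ^ k + 12 * n ^ 2 := by
  intro h
  exact hc (hr.dvd_of_dvd_pow ((Nat.dvd_add_left (dvd_mul_of_dvd_left h12 _)).1 h))

theorem five_le_of {r : ℕ} (hr : r.Prime) (h2 : r ≠ 2) (h3 : r ≠ 3) : 5 ≤ r := by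
  by_contra hlt
  have h4 := hr.two_le
  have h5 : r = 4 := by omega
  subst h5
  exact absurd hr (by norm_num)

theorem leg_neg_one_q (q : ℕ) [Fact q.Prime] (h : q % 4 = 3) : legendreSym q (-1) = -1 := by
  rw [legendreSym.at_neg_one (by omega), ZMod.χ₄_nat_three_mod_four h]

theorem den_cond {p r : ℕ} [Fact r.Prime] (hr : 5 ≤ r) (h : (p : ℤ) ∣ r - legendreSym r (-1)) :
    (p : ℤ) ∣ r - (if r % 4 = 1 then 1 else -1) := by
  have hr4 : r % 4 = 1 ∨ r % 4 = 3 := by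
    rcases (Fact.out : r.Prime).eq_two_or_odd with h3 | h3 <;> omega
  rcases hr4 with h3 | h3
  · rw [if_pos h3]
    rwa [legendreSym.at_neg_one (by omega), ZMod.χ₄_nat_one_mod_four h3] at h
  · rw [if_neg (by omega)]
    rwa [leg_neg_one_q r h3] at h

end Pool.Agent.H72.SQ
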