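import Mathlib

/-!
# `y³ = 1 + 12 w²` implies `w = 0` (infinite descent)
-/

set_option autoImplicit false

namespace Pool.Agent.H72.SQ

/-- natural numbers: a coprime product which is a `k`-th power -/
theorem nat_pow_of_mul {a b g k : ℕ} (h : Nat.Coprime a b) (e : a * b = g ^ k) :
    ∃ x y : ℕ, a = x ^ k ∧ b = y ^ k := by
  obtain ⟨x, hx⟩ := exists_eq_pow_of_mul_eq_pow (Nat.isUnit_iff.2 h) e
  obtain ⟨y, hy⟩ := exists_eq_pow_of_mul_eq_pow (a := b) (b := a) (c := g) (k := k)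
    (Nat.isUnit_iff.2 h.symm) (by rw [mul_comm]; exact e)
  exact ⟨x, y, hx, hy⟩

theorem desc1 : ∀ (n g z : ℕ), g = n → z ^ 2 = 1 + 108 * g ^ 4 → g = 0 := by
  intro n
  induction n using Nat.strong_induction_on with
  | _ n ih =>
  intro g z hg hz
  by_contra hg0
  have hgpos : 0 < g := Nat.pos_of_ne_zero hg0
  -- `z = 2 A + 1`
  have hzodd : z % 2 = 1 := by
    rcases Nat.even_or_odd z with h | h
    · exfalso
      obtain ⟨x, hx⟩ := h
      have : z ^ 2 = 4 * x ^ 2 := by rw [hx]; ring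
      omega
    · exact Nat.odd_iff.1 h
  obtain ⟨A, hA⟩ : ∃ A, z = 2 * A + 1 := ⟨z / 2, by omega⟩
  have e1 : A * (A + 1) = 27 * g ^ 4 := by
    have : 4 * (A * (A + 1)) = 4 * (27 * g ^ 4) := by
      have h2 : z ^ 2 = 4 * (A * (A + 1)) + 1 := by rw [hA]; ring
      omega
    omega
  have hcop : Nat.Coprime A (A + 1) := by simp
  have hA0 : A ≠ 0 := by
    rintro rfl
    have : 0 < g ^ 4 := by positivity
    omega
  have h27 : (27 : ℕ) = 3 ^ 3 := by norm_num
  have hcase : 27 ∣ A ∨ 27 ∣ A + 1 := by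
    have h3 : 27 ∣ A * (A + 1) := ⟨g ^ 4, e1⟩
    by_cases h : 3 ∣ A
    · left
      have h4 : ¬ 3 ∣ A + 1 := by omega
      have h5 : Nat.Coprime 27 (A + 1) := by
        rw [h27]
        exact Nat.Coprime.pow_left 3 ((Nat.Prime.coprime_iff_not_dvd Nat.prime_three).2 h4)
      exact h5.dvd_of_dvd_mul_right h3
    · right
      have h5 : Nat.Coprime 27 A := by
        rw [h27]
        exact Nat.Coprime.pow_left 3 ((Nat.Prime.coprime_iff_not_dvd Nat.prime_three).2 h)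
      exact h5.dvd_of_dvd_mul_left h3
  rcases hcase with ⟨a, ha⟩ | ⟨a, ha⟩
  · -- `A = 27 a`
    have e2 : a * (27 * a + 1) = g ^ 4 := by
      have : 27 * (a * (27 * a + 1)) = 27 * g ^ 4 := by
        rw [← e1, ha]; ring
      omega
    obtain ⟨x, y, hx, hy⟩ := nat_pow_of_mul (by simp) e2
    have e3 : y ^ 4 = 27 * x ^ 4 + 1 := by rw [← hy, ← hx]
    have hxy : g = x * y := by
      have h4 : (x * y) ^ 4 = g ^ 4 := by rw [mul_pow, ← hx, ← hy, e2]
      exact (Nat.pow_left_injective (by norm_num : 4 ≠ 0) h4).symm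
    have hx0 : x ≠ 0 := by
      rintro rfl
      exact hg0 (by rw [hxy, zero_mul])
    have hy0 : y ≠ 0 := by
      rintro rfl
      exact hg0 (by rw [hxy, mul_zero])
    have hyodd : y % 2 = 1 := by
      rcases Nat.even_or_odd y with h | h
      · exfalso
        obtain ⟨c, hc⟩ := h
        have h5 : y ^ 4 = 16 * c ^ 4 := by rw [hc]; ring
        rcases Nat.even_or_odd x with h6 | h6
        · obtain ⟨d, hd⟩ := h6
          have h7 : x ^ 4 = 16 * d ^ 4 := by rw [hd]; ring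
          omega
        · obtain ⟨d, hd⟩ := h6
          have h7 : x ^ 4 = 16 * (d ^ 4 + 2 * d ^ 3) + 8 * (d * (3 * d + 1)) + 1 := by
            rw [hd]; ring
          have h8 : 2 ∣ d * (3 * d + 1) := by
            rcases Nat.even_or_odd d with h9 | h9
            · exact dvd_mul_of_dvd_left h9.two_dvd _
            · obtain ⟨k, hk⟩ := h9
              exact dvd_mul_of_dvd_right ⟨3 * k + 2, by rw [hk]; ring⟩ _
          obtain ⟨k, hk⟩ := h8
          omega
      · exact Nat.odd_iff.1 h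
    obtain ⟨t, ht⟩ : ∃ t, y = 2 * t + 1 := ⟨y / 2, by omega⟩
    have hxev : x % 2 = 0 := by
      rcases Nat.even_or_odd x with h | h
      · exact Nat.even_iff.1 h
      · exfalso
        have h5 : (27 * x ^ 4 + 1) % 2 = 0 := by
          have : x ^ 4 % 2 = 1 := Nat.odd_iff.1 (h.pow)
          omega
        have h6 : y ^ 4 % 2 = 1 := Nat.odd_iff.1 ((Nat.odd_iff.2 hyodd).pow)
        omega
    obtain ⟨x', hx'⟩ : ∃ x', x = 2 * x' := ⟨x / 2, by omega⟩
    -- `B = (y² + 1)/2 = 2 t² + 2 t + 1`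
    obtain ⟨C, hC⟩ : ∃ C, C = 2 * t ^ 2 + 2 * t := ⟨_, rfl⟩
    have hy2 : y ^ 2 = 2 * C + 1 := by rw [ht, hC]; ring
    have e4 : C * (C + 1) = 108 * x' ^ 4 := by
      have h5 : y ^ 4 = 4 * (C * (C + 1)) + 1 := by
        have : y ^ 4 = (y ^ 2) ^ 2 := by ring
        rw [this, hy2]; ring
      have h6 : x ^ 4 = 16 * x' ^ 4 := by rw [hx']; ring
      omega
    have hCC : Nat.Coprime C (C + 1) := by simp
    have h3 : ¬ 3 ∣ C + 1 := by
      intro h
      have h5 : 3 ∣ y ^ 2 + 1 := by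
        rw [hy2]
        obtain ⟨k, hk⟩ := h
        exact ⟨2 * k, by omega⟩
      have h6 : (y % 3) = 0 ∨ (y % 3) = 1 ∨ (y % 3) = 2 := by omega
      have h7 : (y ^ 2 + 1) % 3 = 0 := Nat.mod_eq_zero_of_dvd h5
      rcases h6 with h6 | h6 | h6 <;> simp [Nat.add_mod, Nat.pow_mod, h6] at h7
    have h2 : ¬ 2 ∣ C + 1 := by
      rintro ⟨k, hk⟩
      have : C = 2 * (t ^ 2 + t) := by rw [hC]; ring
      omega
    have h108 : 108 ∣ C := by
      have h5 : Nat.Coprime 108 (C + 1) := by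
        have : (108 : ℕ) = 2 ^ 2 * 3 ^ 3 := by norm_num
        rw [this]
        exact Nat.Coprime.mul_left
          (Nat.Coprime.pow_left 2 ((Nat.Prime.coprime_iff_not_dvd Nat.prime_two).2 h2))
          (Nat.Coprime.pow_left 3 ((Nat.Prime.coprime_iff_not_dvd Nat.prime_three).2 h3))
      exact h5.dvd_of_dvd_mul_right ⟨x' ^ 4, e4⟩
    obtain ⟨b, hb⟩ := h108
    have e5 : b * (108 * b + 1) = x' ^ 4 := by
      have : 108 * (b * (108 * b + 1)) = 108 * x' ^ 4 := by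
        rw [← e4, hb]; ring
      omega
    obtain ⟨v, u, hv, hu⟩ := nat_pow_of_mul (by simp) e5
    have e6 : (u ^ 2) ^ 2 = 1 + 108 * v ^ 4 := by
      rw [← hv, ← pow_mul, ← hu]; ring
    have hv' : v * u = x' := by
      have h4 : (v * u) ^ 4 = x' ^ 4 := by rw [mul_pow, ← hv, ← hu, e5]
      exact Nat.pow_left_injective (by norm_num : 4 ≠ 0) h4
    have hu0 : 0 < u := by
      rcases Nat.eq_zero_or_pos u with h | h
      · rw [h] at hu
        simp at hu
      · exact h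
    have hvlt : v < n := by
      have h5 : v ≤ x' := by
        rw [← hv']
        exact Nat.le_mul_of_pos_right v hu0
      have h6 : x ≤ g := by
        rw [hxy]
        exact Nat.le_mul_of_pos_right x (Nat.pos_of_ne_zero hy0)
      omega
    have hv0 := ih v hvlt v (u ^ 2) rfl e6
    apply hx0
    rw [hx', ← hv', hv0, zero_mul, mul_zero]
  · -- `A + 1 = 27 a`
    have ha0 : 0 < a := by
      rcases Nat.eq_zero_or_pos a with h | h
      · rw [h] at ha; omega
      · exact h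
    have e2 : a * A = g ^ 4 := by
      have : 27 * (a * A) = 27 * g ^ 4 := by
        rw [← e1, ha]; ring
      omega
    have hc : Nat.Coprime a A := by
      have := hcop.symm
      rw [ha] at this
      exact Nat.Coprime.coprime_mul_left this
    obtain ⟨x, y, hx, hy⟩ := nat_pow_of_mul hc e2
    have h5 : y ^ 4 + 1 = 27 * a := by rw [← hy]; exact ha
    have h6 : (y % 3) = 0 ∨ (y % 3) = 1 ∨ (y % 3) = 2 := by omega
    have h7 : (y ^ 4 + 1) % 3 = 0 := by omega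
    rcases h6 with h6 | h6 | h6 <;> simp [Nat.add_mod, Nat.pow_mod, h6] at h7

/-- the second descent step -/
theorem desc2 (e f a : ℕ) (h1 : f ^ 2 = 1 + 3 * e ^ 2) (h2 : e * (3 * e + 2 * f) = 12 * a ^ 2) :
    a = 0 := by
  have hcop : Nat.Coprime e f := by
    have h3 : Nat.Coprime e (f ^ 2) := by
      rw [h1]
      have : 1 + 3 * e ^ 2 = 1 + e * (3 * e) := by ring
      rw [this]
      simp
    exact Nat.Coprime.coprime_dvd_right (dvd_pow_self f two_ne_zero) h3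
  have heven : e % 2 = 0 := by
    rcases Nat.even_or_odd e with h | h
    · exact Nat.even_iff.1 h
    · exfalso
      have h3 : e % 2 = 1 := Nat.odd_iff.1 h
      have h4 : (3 * e + 2 * f) % 2 = 1 := by omega
      have h5 : (e * (3 * e + 2 * f)) % 2 = 1 := by
        rw [Nat.mul_mod, h3, h4]
      omega
  obtain ⟨e1, he1⟩ : ∃ e1, e = 2 * e1 := ⟨e / 2, by omega⟩
  have h3 : e1 * (3 * e1 + f) = 3 * a ^ 2 := by
    have : 4 * (e1 * (3 * e1 + f)) = 4 * (3 * a ^ 2) := by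
      have h4 : e * (3 * e + 2 * f) = 4 * (e1 * (3 * e1 + f)) := by rw [he1]; ring
      omega
    omega
  have h4 : f ^ 2 = 1 + 12 * e1 ^ 2 := by rw [h1, he1]; ring
  have hf3 : ¬ 3 ∣ f := by
    intro h
    have h5 : 3 ∣ f ^ 2 := dvd_pow h two_ne_zero
    omega
  have he3 : 3 ∣ e1 := by
    by_contra h
    have h5 : 3 ∣ e1 * (3 * e1 + f) := ⟨a ^ 2, h3⟩
    rcases (Nat.Prime.dvd_mul Nat.prime_three).1 h5 with h6 | h6
    · exact h h6
    · exact hf3 ((Nat.dvd_add_right (dvd_mul_right 3 e1)).1 h6)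
  obtain ⟨g0, hg0⟩ := he3
  have h5 : g0 * (9 * g0 + f) = a ^ 2 := by
    have : 3 * (g0 * (9 * g0 + f)) = 3 * a ^ 2 := by
      rw [← h3, hg0]; ring
    omega
  have hc2 : Nat.Coprime g0 (9 * g0 + f) := by
    have h6 : Nat.Coprime g0 f := by
      refine Nat.Coprime.coprime_dvd_left ?_ hcop
      exact ⟨6, by rw [he1, hg0]; ring⟩
    have : 9 * g0 + f = f + g0 * 9 := by ring
    rw [this]
    exact (Nat.coprime_add_mul_left_right g0 f 9).2 h6
  obtain ⟨g, h, hg, hh⟩ := nat_pow_of_mul hc2 h5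
  have h6 : f ^ 2 = 1 + 108 * g ^ 4 := by
    rw [h4, hg0, hg]; ring
  have h7 : g = 0 := desc1 g g f rfl h6
  rw [h7] at hg
  have h8 : g0 = 0 := by rw [hg]; norm_num
  rw [h8, zero_mul] at h5
  exact pow_eq_zero_iff (two_ne_zero) |>.1 h5.symm

/-- `y³ = 1 + 12 w²` has only the solution `w = 0` -/
theorem cube_eq (y w : ℕ) (h : y ^ 3 = 1 + 12 * w ^ 2) : w = 0 := by
  have hy3 : y % 3 = 1 := by
    have h6 : (y % 3) = 0 ∨ (y % 3) = 1 ∨ (y % 3) = 2 := by omega
    have h7 : (y ^ 3) % 3 = 1 := by omega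
    rcases h6 with h6 | h6 | h6
    · simp [Nat.pow_mod, h6] at h7
    · exact h6
    · simp [Nat.pow_mod, h6] at h7
  obtain ⟨z, hz⟩ : ∃ z, y = 3 * z + 1 := ⟨y / 3, by omega⟩
  obtain ⟨Q, hQ⟩ : ∃ Q, Q = 3 * z ^ 2 + 3 * z + 1 := ⟨_, rfl⟩
  have h1 : 4 * w ^ 2 = 3 * (z * Q) := by
    have : y ^ 3 = 9 * (z * Q) + 1 := by rw [hz, hQ]; ring
    omega
  have hw3 : 3 ∣ w := by
    have h2 : 3 ∣ 4 * w ^ 2 := ⟨z * Q, h1⟩
    have h3 : 3 ∣ w ^ 2 := by omega
    exact Nat.prime_three.dvd_of_dvd_pow h3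
  obtain ⟨w1, hw1⟩ := hw3
  have h2 : z * Q = 12 * w1 ^ 2 := by
    have : 4 * w ^ 2 = 3 * (12 * w1 ^ 2) := by rw [hw1]; ring
    omega
  have hQ2 : ¬ 2 ∣ Q := by
    have h3 : 2 ∣ z * (z + 1) := (Nat.even_mul_succ_self z).two_dvd
    obtain ⟨k, hk⟩ := h3
    have : Q = 3 * (z * (z + 1)) + 1 := by rw [hQ]; ring
    omega
  have hQ3 : ¬ 3 ∣ Q := by
    have : Q = 3 * (z ^ 2 + z) + 1 := by rw [hQ]; ring
    omega
  have h12 : Nat.Coprime 12 Q := by
    have : (12 : ℕ) = 2 ^ 2 * 3 := by norm_num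
    rw [this]
    exact Nat.Coprime.mul_left
      (Nat.Coprime.pow_left 2 ((Nat.Prime.coprime_iff_not_dvd Nat.prime_two).2 hQ2))
      ((Nat.Prime.coprime_iff_not_dvd Nat.prime_three).2 hQ3)
  obtain ⟨s0, hs0⟩ : 12 ∣ z := h12.dvd_of_dvd_mul_right ⟨w1 ^ 2, h2⟩
  have h3 : s0 * Q = w1 ^ 2 := by
    have : 12 * (s0 * Q) = 12 * w1 ^ 2 := by rw [← h2, hs0]; ring
    omega
  have hc : Nat.Coprime s0 Q := by
    have : Q = 1 + s0 * (36 * z + 36) := by rw [hQ, hs0]; ring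
    rw [this]
    simp
  obtain ⟨a, b, ha, hb⟩ := nat_pow_of_mul hc h3
  -- `(2b)² = 3 (24 a² + 1)² + 1`
  obtain ⟨Y, hY⟩ : ∃ Y, Y = 24 * a ^ 2 + 1 := ⟨_, rfl⟩
  have h4 : 4 * b ^ 2 = 3 * Y ^ 2 + 1 := by
    rw [← hb, hQ, hs0, ha, hY]; ring
  have hb1 : 1 ≤ b := by
    rcases Nat.eq_zero_or_pos b with h0 | h0
    · rw [h0] at h4
      omega
    · exact h0
  obtain ⟨X, hX⟩ : ∃ X, 2 * b = X + 1 := ⟨2 * b - 1, by omega⟩
  have h5 : X * (X + 2) = 3 * Y ^ 2 := by
    have : 4 * b ^ 2 = (X + 1) ^ 2 := by rw [← hX]; ring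
    have h6 : (X + 1) ^ 2 = X * (X + 2) + 1 := by ring
    omega
  have hXodd : X % 2 = 1 := by omega
  have hXc : Nat.Coprime X (X + 2) := by
    have h6 : Nat.Coprime X 2 := by
      rw [Nat.coprime_comm, Nat.Prime.coprime_iff_not_dvd Nat.prime_two]
      omega
    simpa using h6
  have h3X : 3 ∣ X ∨ 3 ∣ X + 2 := (Nat.Prime.dvd_mul Nat.prime_three).1 ⟨Y ^ 2, h5⟩
  rcases h3X with ⟨x, hx⟩ | ⟨x, hx⟩
  · -- `X = 3 x`: `x = s²`, `3 x + 2 = t²`, impossible
    exfalso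
    have h6 : x * (X + 2) = Y ^ 2 := by
      have : 3 * (x * (X + 2)) = 3 * Y ^ 2 := by rw [← h5, hx]; ring
      omega
    have h7 : Nat.Coprime x (X + 2) := by
      refine Nat.Coprime.coprime_dvd_left ?_ hXc
      exact ⟨3, by rw [hx]; ring⟩
    obtain ⟨s, t, hs, ht⟩ := nat_pow_of_mul h7 h6
    have h8 : (t ^ 2) % 3 = 2 := by omega
    have h9 : (t % 3) = 0 ∨ (t % 3) = 1 ∨ (t % 3) = 2 := by omega
    rcases h9 with h9 | h9 | h9 <;> simp [Nat.pow_mod, h9] at h8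
  · -- `X + 2 = 3 x`, `x = s²`, `X = t²`
    have h6 : x * X = Y ^ 2 := by
      have : 3 * (x * X) = 3 * Y ^ 2 := by rw [← h5, hx]; ring
      omega
    have h7 : Nat.Coprime x X := by
      refine Nat.Coprime.coprime_dvd_left ?_ hXc.symm
      exact ⟨3, by rw [hx]; ring⟩
    obtain ⟨s, t, hs, ht⟩ := nat_pow_of_mul h7 h6
    have h8 : 3 * s ^ 2 = t ^ 2 + 2 := by omega
    have h9 : s * t = Y := by
      have h10 : (s * t) ^ 2 = Y ^ 2 := by rw [mul_pow, ← hs, ← ht, h6]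
      exact Nat.pow_left_injective (by norm_num : 2 ≠ 0) h10
    have hst : s ≤ t := by
      by_contra hlt
      have h10 : t + 1 ≤ s := by omega
      have i1 := Nat.pow_le_pow_left h10 2
      have i2 : (t + 1) ^ 2 = t ^ 2 + 2 * t + 1 := by ring
      omega
    have hsodd : s % 2 = 1 ∧ t % 2 = 1 := by
      have h10 : Y % 2 = 1 := by omega
      rw [← h9] at h10
      rcases Nat.even_or_odd s with h11 | h11
      · have : Even (s * t) := h11.mul_right t
        rw [Nat.even_iff] at this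
        omega
      · rcases Nat.even_or_odd t with h12 | h12
        · have : Even (s * t) := h12.mul_left s
          rw [Nat.even_iff] at this
          omega
        · exact ⟨Nat.odd_iff.1 h11, Nat.odd_iff.1 h12⟩
    obtain ⟨e, he⟩ : ∃ e, t = s + 2 * e := ⟨(t - s) / 2, by omega⟩
    have h10 : s ^ 2 = 1 + 2 * (s * e) + 2 * e ^ 2 := by
      have i1 : 3 * s ^ 2 = (s + 2 * e) ^ 2 + 2 := by rw [h8, he]
      have i2 : (s + 2 * e) ^ 2 = s ^ 2 + 4 * (s * e) + 4 * e ^ 2 := by ring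
      omega
    have hes : e ≤ s := by
      by_contra hlt
      have h11 : s + 1 ≤ e := by omega
      have i1 := Nat.pow_le_pow_left h11 2
      have i2 : (s + 1) ^ 2 = s ^ 2 + 2 * s + 1 := by ring
      omega
    obtain ⟨f, hf⟩ : ∃ f, s = e + f := ⟨s - e, by omega⟩
    have h11 : f ^ 2 = 1 + 3 * e ^ 2 := by
      rw [hf] at h10
      have i1 : (e + f) ^ 2 = e ^ 2 + 2 * (e * f) + f ^ 2 := by ring
      have i2 : (e + f) * e = e ^ 2 + e * f := by ring
      rw [i1, i2] at h10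
      omega
    have h12 : e * (3 * e + 2 * f) = 12 * a ^ 2 := by
      have h13 : s * t = 24 * a ^ 2 + 1 := by rw [h9, hY]
      rw [he, hf] at h13
      have i1 : (e + f) * (e + f + 2 * e) = 3 * e ^ 2 + 4 * (e * f) + f ^ 2 := by ring
      rw [i1] at h13
      have i2 : 2 * (e * (3 * e + 2 * f)) = 6 * e ^ 2 + 4 * (e * f) := by ring
      omega
    have ha0 := desc2 e f a h11 h12
    have : s0 = 0 := by rw [ha, ha0]; norm_num
    rw [this, zero_mul] at h3
    have h14 : w1 = 0 := pow_eq_zero_iff (two_ne_zero) |>.1 h3.symm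
    rw [hw1, h14]

end Pool.Agent.H72.SQ
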