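import Pool.Agent.H72.SQ.Arith
import Pool.Agent.H72.SQ.Desc
import Pool.Agent.H82.HW.QuadField7
import Pool.Agent.H27.SU.FIN
import Pool.Agent.H27.SU.CGmain

/-!
# Elliptic curves with square discriminant and the nonsplit normaliser
-/

set_option autoImplicit false

namespace Pool.Agent.H72.SQ

open Pool.Agent.H27.SU

/-- `j = 1728 + c₆² / Δ` -/
theorem j_eq (E : WeierstrassCurve ℚ) [E.IsElliptic] (hΔ : IsSquare E.Δ) :
    ∃ t : ℚ, E.j = 1728 + t ^ 2 := by
  obtain ⟨δ, hδ⟩ := hΔ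
  have h0 : E.Δ ≠ 0 := by
    rw [← WeierstrassCurve.coe_Δ' E]
    exact E.Δ'.ne_zero
  have hδ0 : δ ≠ 0 := by
    rintro rfl
    exact h0 (by rw [hδ, mul_zero])
  have h1 : E.Δ * E.j = E.c₄ ^ 3 := by
    rw [WeierstrassCurve.j, ← WeierstrassCurve.coe_Δ' E, Units.mul_inv_cancel_left]
  have h2 := E.c_relation
  refine ⟨E.c₆ / δ, ?_⟩
  have h3 : E.j = E.c₄ ^ 3 / E.Δ := by
    rw [eq_div_iff h0, mul_comm, h1]
  rw [h3, hδ]
  have h4 : E.c₄ ^ 3 = 1728 * (δ * δ) + E.c₆ ^ 2 := by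
    rw [← hδ]
    linarith
  rw [h4]
  field_simp

theorem val_mul_1728 {r N : ℕ} [Fact r.Prime] (h5 : 5 ≤ r) (hN0 : N ≠ 0) :
    ((padicValInt r (1728 * (N : ℤ)) : ℕ) : ℤ) = (padicValNat r N : ℤ) := by
  have hr : r.Prime := Fact.out
  have hr1728 : ¬ r ∣ 1728 := by
    intro h1
    have h3 : r ∣ 2 ^ 6 * 3 ^ 3 := by simpa using h1
    rcases (Nat.Prime.dvd_mul hr).1 h3 with h4 | h4
    · have := (Nat.prime_dvd_prime_iff_eq hr Nat.prime_two).1 (hr.dvd_of_dvd_pow h4)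
      omega
    · have := (Nat.prime_dvd_prime_iff_eq hr Nat.prime_three).1 (hr.dvd_of_dvd_pow h4)
      omega
  have hz : ((N : ℕ) : ℤ) ≠ 0 := by exact_mod_cast hN0
  have h0 : padicValInt r 1728 = 0 := padicValInt.eq_zero_of_not_dvd (by
    intro h
    exact hr1728 (by exact_mod_cast h))
  rw [padicValInt.mul (by norm_num) hz, h0, zero_add, padicValInt.of_nat]

theorem r_cond (r : ℕ) [Fact r.Prime] (h5 : 5 ≤ r)
    (h1 : legendreSym r (-1) = legendreSym r (-3)) (h2 : legendreSym r (-3) = 1) :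
    r % 12 = 1 := by
  have hr : r.Prime := Fact.out
  rw [h2] at h1
  rw [Pool.Agent.H82.SV.leg_neg_three r h5] at h2
  have hr3 : r % 3 = 1 := by
    by_contra hcon
    rw [if_neg hcon] at h2
    norm_num at h2
  have hr4 : r % 4 = 1 := by
    rcases hr.eq_two_or_odd with h6 | h6
    · omega
    · rcases (by omega : r % 4 = 1 ∨ r % 4 = 3) with h7 | h7
      · exact h7
      · rw [leg_neg_one_q r h7] at h1
        norm_num at h1
  omega

theorem mod12_of (r : ℕ) [Fact r.Prime] (h5 : 5 ≤ r) (h2 : legendreSym r (-3) = 1) :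
    r % 12 = 1 ∨ r % 12 = 7 := by
  have hr : r.Prime := Fact.out
  rw [Pool.Agent.H82.SV.leg_neg_three r h5] at h2
  have hr3 : r % 3 = 1 := by
    by_contra hcon
    rw [if_neg hcon] at h2
    norm_num at h2
  rcases hr.eq_two_or_odd with h6 | h6 <;> omega

theorem mod4_of7 {r : ℕ} (h : r % 12 = 7) : r % 4 = 3 := by omega

theorem mod3_of7 {r : ℕ} (h : r % 12 = 7) : r % 3 = 1 := by omega

theorem ne_sq {p r : ℕ} (h : p % 4 = 3) : 4 * r ≠ p ^ 2 := by
  intro e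
  have h1 : p ^ 2 % 2 = 1 := Nat.odd_iff.1 ((Nat.odd_iff.2 (by omega)).pow)
  omega

theorem dvd_num_of_pos (r : ℕ) [Fact r.Prime] (x : ℚ) (h : 0 < padicValRat r x) :
    (r : ℤ) ∣ x.num := by
  by_contra hcon
  rw [padicValRat, padicValInt.eq_zero_of_not_dvd hcon] at h
  omega

theorem square_disc (E : WeierstrassCurve ℚ) [E.IsElliptic] (hΔ : IsSquare E.Δ)
    (hj : E.j ≠ 1728) (p : ℕ) [Fact p.Prime] (hp : 29 ≤ p) (hE : InNonsplitNormaliser E p) :
    p % 4 = 3 ∧ ∃ (w : ℤ) (c N : ℕ), w ≠ 0 ∧ 0 < c ∧ IsCoprime w (c : ℤ) ∧ Nat.Coprime c 6 ∧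
      N = c ^ (2 * p) + 12 * w.natAbs ^ 2 ∧ E.j = 1728 * N / (c : ℚ) ^ (2 * p) ∧
      (7 * 11 * 19 * 43 * 67 * 163 : ℤ) ∣ w ∧
      (∀ r : ℕ, r.Prime → r ∣ c → 2 * p ≤ r + 1 ∧
        (p : ℤ) ∣ r - (if r % 4 = 1 then 1 else -1)) ∧
      (∀ r : ℕ, r.Prime → r ∣ N →
        r % 12 = 1 ∨ (r % 12 = 7 ∧ 3 ∣ padicValNat r N ∧ p ^ 2 < 4 * r)) ∧
      (p % 3 = 2 ∨ (c ≠ 1 ∧ ∃ y : ℕ, N = y ^ 3)) ∧
      (∀ (q : ℕ) [Fact q.Prime], 5 ≤ q → q % 4 = 3 → 4 * q < p ^ 2 → ¬ q ∣ c →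
        ¬ OrdinaryAt E.j q) := by
  have hpp : p.Prime := Fact.out
  obtain ⟨t, ht⟩ := j_eq E hΔ
  have ht0 : t ≠ 0 := by
    rintro rfl
    exact hj (by rw [ht]; norm_num)
  have hj0 : E.j ≠ 0 := by
    rw [ht]
    positivity
  have e1 : E.j - 1728 = t ^ 2 := by rw [ht]; ring
  obtain ⟨-, -, -, -, -, m, hmsq, hmneg, hmp, hneg, hmq, -, hord, hm2, hm3, htame⟩ :=
    Pool.Agent.H82.HW.quad_field7 E hj0 hj p hp hE
  -- `m` is `-1`, `-2`, `-3` or `-6`
  have h23 : ∀ q : ℕ, q.Prime → 5 ≤ q → ¬ (q : ℤ) ∣ m := by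
    intro q hq h5 hd
    have h1 := (hmq q hq h5 hd).2.1
    have : Fact q.Prime := ⟨hq⟩
    rw [e1, padicValRat.pow] at h1
    obtain ⟨c, hc⟩ := h1
    push_cast at hc
    omega
  have f2 : Fact (Nat.Prime 2) := ⟨by norm_num⟩
  have f3 : Fact (Nat.Prime 3) := ⟨by norm_num⟩
  have f5 : Fact (Nat.Prime 5) := ⟨by norm_num⟩
  have f7 : Fact (Nat.Prime 7) := ⟨by norm_num⟩
  have f11 : Fact (Nat.Prime 11) := ⟨by norm_num⟩
  have f13 : Fact (Nat.Prime 13) := ⟨by norm_num⟩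
  have f19 : Fact (Nat.Prime 19) := ⟨by norm_num⟩
  have f43 : Fact (Nat.Prime 43) := ⟨by norm_num⟩
  have f67 : Fact (Nat.Prime 67) := ⟨by norm_num⟩
  have f163 : Fact (Nat.Prime 163) := ⟨by norm_num⟩
  have hsmall : ∀ (q : ℕ) [Fact q.Prime], q + 1 < 2 * p → 0 ≤ padicValRat q E.j := by
    intro q hq h
    by_contra hcon
    have := (hneg q (not_le.1 hcon)).2.1
    omega
  have hden : ∀ (q : ℕ) [Fact q.Prime], 0 ≤ padicValRat q E.j → ¬ q ∣ t.den := by
    intro q hq h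
    rw [ht] at h
    exact nden_of_nonneg t q h
  have o5 : OrdinaryAt E.j 5 := by
    rw [ht]
    exact ord_rat le_rfl (by norm_num) 0 chk_5 t (hden 5 (hsmall 5 (by omega))) (Or.inl rfl)
  have o13 : OrdinaryAt E.j 13 := by
    rw [ht]
    exact ord_rat (by norm_num) (by norm_num) 0 chk_13 t (hden 13 (hsmall 13 (by omega)))
      (Or.inl rfl)
  have hp2 : 4 * 163 < p ^ 2 := by nlinarith
  have l5 := hord 5 le_rfl (by omega) (hsmall 5 (by omega)) o5
  have l13 := hord 13 (by norm_num) (by omega) (hsmall 13 (by omega)) o13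
  have hm1 : m = -1 := by
    rcases sqfree_23 m hmsq h23 with h | h | h | h | h | h | h | h
    · omega
    · exact h
    · omega
    · subst h
      exact absurd (by norm_num) l5
    · omega
    · subst h
      exact absurd (by norm_num) l5
    · omega
    · subst h
      exact absurd (by norm_num) l13
  subst hm1
  have hp4 : p % 4 = 3 := by
    rcases hpp.eq_two_or_odd with h | h
    · omega
    · rcases (by omega : p % 4 = 1 ∨ p % 4 = 3) with h1 | h1
      · rw [legendreSym.at_neg_one (by omega), ZMod.χ₄_nat_one_mod_four h1] at hmp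
        norm_num at hmp
      · exact h1
  refine ⟨hp4, ?_⟩
  obtain ⟨u, hu⟩ : ∃ u, u = t.num := ⟨_, rfl⟩
  obtain ⟨v, hv⟩ : ∃ v, v = t.den := ⟨_, rfl⟩
  have hv0 : v ≠ 0 := by rw [hv]; exact t.den_nz
  have hu0 : u ≠ 0 := by rw [hu]; exact Rat.num_ne_zero.2 ht0
  -- `2`
  have k2 : (16 : ℤ) ∣ u ∧ ¬ 2 ∣ v := by
    have h0 := hsmall 2 (by omega)
    have hd := hden 2 h0
    have hne : padicValRat 2 E.j ≠ 0 := by
      intro h
      have := hm2 h
      omega
    have h3 : (3 : ℤ) ∣ padicValRat 2 E.j := by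
      by_contra h3
      have := (htame 2 (lt_of_le_of_ne h0 (Ne.symm hne)) h3).2.1 rfl
      omega
    rw [ht, sq_val_nden t 2 hd] at hne h3
    rw [← hv] at hd
    refine ⟨?_, hd⟩
    rw [← hu, ← hv] at hne h3
    refine two_adic u v ?_ ?_ (Nat.pos_of_ne_zero (by exact_mod_cast hne)) (by exact_mod_cast h3)
    · omega
    · have := A_pos t
      rw [← hu, ← hv] at this
      exact this.ne'
  -- `3`
  have k3 : (9 : ℤ) ∣ u ∧ ¬ 3 ∣ v := by
    have h0 := hsmall 3 (by omega)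
    have hd := hden 3 h0
    have hne : padicValRat 3 E.j ≠ 0 := by
      intro h
      have := hm3 h
      omega
    have h3 : (3 : ℤ) ∣ padicValRat 3 E.j := by
      by_contra h3
      have h4 := (htame 3 (lt_of_le_of_ne h0 (Ne.symm hne)) h3).2.2.1 rfl
      apply cf_neg_one_padic3
      obtain ⟨x, hx⟩ := h4
      have ht' : ((t : ℚ) : ℚ_[3]) ≠ 0 := by exact_mod_cast ht0
      refine ⟨x / t, ?_⟩
      rw [div_mul_div_comm, ← hx, e1]
      push_cast
      field_simp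
    rw [ht, sq_val_nden t 3 hd] at hne h3
    rw [← hv] at hd
    refine ⟨?_, hd⟩
    rw [← hu, ← hv] at hne h3
    refine three_adic u v ?_ (Nat.pos_of_ne_zero (by exact_mod_cast hne)) (by exact_mod_cast h3)
    have := A_pos t
    rw [← hu, ← hv] at this
    exact this.ne'
  obtain ⟨w, hw⟩ : (144 : ℤ) ∣ u := by
    have : IsCoprime (16 : ℤ) 9 := ⟨4, -7, by norm_num⟩
    exact this.mul_dvd k2.1 k3.1
  have hw0 : w ≠ 0 := by
    rintro rfl
    exact hu0 (by rw [hw, mul_zero])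
  -- the denominator
  have hdenp : ∀ (r : ℕ) [Fact r.Prime], r ∣ v → p ∣ padicValNat r v ∧ 2 * p ≤ r + 1 ∧
      (p : ℤ) ∣ r - legendreSym r (-1) := by
    intro r hr hd
    rw [hv] at hd
    obtain ⟨h1, h2⟩ := sq_val_den t r hd
    rw [← ht] at h1
    have hlt : padicValRat r E.j < 0 := by
      rw [h1]
      have : (0 : ℤ) < padicValNat r t.den := by exact_mod_cast h2
      linarith
    obtain ⟨h3, h4, h5⟩ := hneg r hlt
    refine ⟨?_, h4, h5⟩
    rw [h1] at h3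
    rw [hv]
    exact dvd_two_mul hpp (by omega) h3
  obtain ⟨c, hc⟩ : ∃ c : ℕ, v = c ^ p := by
    refine exists_pow v p hv0 fun r hr => ?_
    have hrF : Fact r.Prime := ⟨hr⟩
    rw [Nat.factorization_def v hr]
    by_cases h : r ∣ v
    · exact (hdenp r h).1
    · rw [padicValNat.eq_zero_of_not_dvd h]
      exact dvd_zero _
  have hc0 : c ≠ 0 := by
    rintro rfl
    exact hv0 (by rw [hc, zero_pow hpp.ne_zero])
  have hcv : ∀ r : ℕ, r.Prime → (r ∣ c ↔ r ∣ v) := by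
    intro r hr
    rw [hc]
    exact ⟨fun h => dvd_pow h hpp.ne_zero, fun h => hr.dvd_of_dvd_pow h⟩
  obtain ⟨N, hN⟩ : ∃ N, N = c ^ (2 * p) + 12 * w.natAbs ^ 2 := ⟨_, rfl⟩
  have hA : 1728 * (t.den : ℤ) ^ 2 + t.num ^ 2 = 1728 * (N : ℤ) := by
    rw [← hu, ← hv, hw, hN, hc]
    push_cast
    rw [sq_abs]
    ring
  have hN0 : N ≠ 0 := by
    rw [hN]
    exact N_ne hc0
  have hjw : E.j = 1728 * N / (c : ℚ) ^ (2 * p) := by
    rw [ht, sq_num, hA, ← hv, hc]
    push_cast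
    rw [← pow_mul, mul_comm p 2]
  have hcopuv : ∀ r : ℕ, r.Prime → r ∣ c → ¬ (r : ℤ) ∣ w := by
    intro r hr h h1
    have h2 : r ∣ t.den := by rw [← hv, ← hcv r hr]; exact h
    apply cop t hr h2
    rw [← hu, hw]
    exact dvd_mul_of_dvd_right h1 _
  -- supersingular primes
  have hss : ∀ (q : ℕ) [Fact q.Prime], 5 ≤ q → q % 4 = 3 → 4 * q < p ^ 2 → ¬ q ∣ c →
      ¬ OrdinaryAt E.j q := by
    intro q hq h5 h4 hs hqc ho
    have h0 : 0 ≤ padicValRat q E.j := by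
      have h1 : ¬ q ∣ t.den := by
        rw [← hv, ← hcv q hq.out]
        exact hqc
      rw [ht, sq_val_nden t q h1]
      positivity
    exact hord q h5 hs h0 ho (leg_neg_one_q q h4)
  have hdvw : ∀ (q : ℕ) [Fact q.Prime], 5 ≤ q → q % 4 = 3 → q ≤ 256 → 4 * q < p ^ 2 →
      ¬ q ∣ c → chk q 1 = true → (q : ℤ) ∣ w := by
    intro q hq h5 h4 h256 hs hqc hchk
    have h1 := hss q h5 h4 hs hqc
    have h2 : ¬ q ∣ t.den := by
      rw [← hv, ← hcv q hq.out]
      exact hqc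
    have h3 : (q : ℤ) ∣ t.num := by
      by_contra hcon
      exact h1 (by rw [ht]; exact ord_rat h5 h256 1 hchk t h2 (Or.inr ⟨rfl, hcon⟩))
    rw [← hu, hw] at h3
    have hqp : Prime (q : ℤ) := Nat.prime_iff_prime_int.1 hq.out
    rcases hqp.dvd_or_dvd h3 with h6 | h6
    · exfalso
      have h7 : q ∣ 144 := by exact_mod_cast h6
      have h8 : q ∣ 2 ^ 4 * 3 ^ 2 := by simpa using h7
      rcases (Nat.Prime.dvd_mul hq.out).1 h8 with h9 | h9
      · have := (Nat.prime_dvd_prime_iff_eq hq.out Nat.prime_two).1 (hq.out.dvd_of_dvd_pow h9)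
        omega
      · have := (Nat.prime_dvd_prime_iff_eq hq.out Nat.prime_three).1 (hq.out.dvd_of_dvd_pow h9)
        omega
    · exact h6
  have hnc : ∀ (q : ℕ) [Fact q.Prime], q ∣ c → 2 * p ≤ q + 1 ∧
      (p : ℤ) ∣ q - legendreSym q (-1) := by
    intro q hq h
    exact (hdenp q ((hcv q hq.out).1 h)).2
  have d7 : (7 : ℤ) ∣ w := hdvw 7 (by norm_num) (by norm_num) (by norm_num) (by omega)
    (fun h => by have := (hnc 7 h).1; omega) chk_7
  have d11 : (11 : ℤ) ∣ w := hdvw 11 (by norm_num) (by norm_num) (by norm_num) (by omega)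
    (fun h => by have := (hnc 11 h).1; omega) chk_11
  have d19 : (19 : ℤ) ∣ w := hdvw 19 (by norm_num) (by norm_num) (by norm_num) (by omega)
    (fun h => by have := (hnc 19 h).1; omega) chk_19
  have d43 : (43 : ℤ) ∣ w := hdvw 43 (by norm_num) (by norm_num) (by norm_num) (by omega)
    (fun h => by have := (hnc 43 h).1; omega) chk_43
  have d67 : (67 : ℤ) ∣ w := by
    refine hdvw 67 (by norm_num) (by norm_num) (by norm_num) (by omega) (fun h => ?_) chk_67
    obtain ⟨h1, h2⟩ := hnc 67 h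
    rw [leg_neg_one_q 67 (by norm_num)] at h2
    have h3 : (p : ℤ) ∣ ((68 : ℕ) : ℤ) := by simpa using h2
    have h4 : p ∣ 68 := by exact_mod_cast h3
    have h6 : p ∣ 2 ^ 2 * 17 := by simpa using h4
    rcases (Nat.Prime.dvd_mul hpp).1 h6 with h7 | h7
    · have := (Nat.prime_dvd_prime_iff_eq hpp Nat.prime_two).1 (hpp.dvd_of_dvd_pow h7)
      omega
    · have := (Nat.prime_dvd_prime_iff_eq hpp (by norm_num)).1 h7
      omega
  have d163 : (163 : ℤ) ∣ w := by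
    refine hdvw 163 (by norm_num) (by norm_num) (by norm_num) (by omega) (fun h => ?_) chk_163
    obtain ⟨h1, h2⟩ := hnc 163 h
    rw [leg_neg_one_q 163 (by norm_num)] at h2
    have h3 : (p : ℤ) ∣ ((164 : ℕ) : ℤ) := by simpa using h2
    have h4 : p ∣ 164 := by exact_mod_cast h3
    have h6 : p ∣ 2 ^ 2 * 41 := by simpa using h4
    rcases (Nat.Prime.dvd_mul hpp).1 h6 with h7 | h7
    · have := (Nat.prime_dvd_prime_iff_eq hpp Nat.prime_two).1 (hpp.dvd_of_dvd_pow h7)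
      omega
    · have := (Nat.prime_dvd_prime_iff_eq hpp (by norm_num)).1 h7
      omega
  have hcw : IsCoprime w (c : ℤ) := by
    rw [Int.isCoprime_iff_gcd_eq_one]
    by_contra hcon
    obtain ⟨r, hr, hrd⟩ := Nat.exists_prime_and_dvd hcon
    have h1 : (r : ℤ) ∣ w := (Int.natCast_dvd_natCast.2 hrd).trans (Int.gcd_dvd_left ..)
    have h2 : (r : ℤ) ∣ (c : ℤ) := (Int.natCast_dvd_natCast.2 hrd).trans (Int.gcd_dvd_right ..)
    exact hcopuv r hr (by exact_mod_cast h2) h1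
  have hc6 : Nat.Coprime c 6 := by
    rw [show (6 : ℕ) = 2 * 3 by norm_num]
    refine Nat.Coprime.mul_right ?_ ?_
    · rw [Nat.coprime_comm, Nat.Prime.coprime_iff_not_dvd Nat.prime_two, hcv 2 Nat.prime_two]
      exact k2.2
    · rw [Nat.coprime_comm, Nat.Prime.coprime_iff_not_dvd Nat.prime_three, hcv 3 Nat.prime_three]
      exact k3.2
  -- primes dividing `N`
  have hrN : ∀ (r : ℕ) [Fact r.Prime], r ∣ N → 5 ≤ r ∧ ¬ r ∣ c ∧
      (r : ℤ) ∣ 1728 * (t.den : ℤ) ^ 2 + t.num ^ 2 ∧ padicValRat r E.j = (padicValNat r N : ℤ) := by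
    intro r hr h
    have h5 : 5 ≤ r := by
      refine five_le_of hr.out ?_ ?_
      · rintro rfl
        rw [hN] at h
        refine N_cop Nat.prime_two (by norm_num) ?_ h
        rw [hcv 2 Nat.prime_two]
        exact k2.2
      · rintro rfl
        rw [hN] at h
        refine N_cop Nat.prime_three (by norm_num) ?_ h
        rw [hcv 3 Nat.prime_three]
        exact k3.2
    have hrA : (r : ℤ) ∣ 1728 * (t.den : ℤ) ^ 2 + t.num ^ 2 := by
      rw [hA]
      exact dvd_mul_of_dvd_right (by exact_mod_cast h) _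
    have hrd : ¬ r ∣ t.den := fun h1 => not_dvd_A t hr.out h1 hrA
    refine ⟨h5, ?_, hrA, ?_⟩
    · rw [hcv r hr.out, hv]
      exact hrd
    · rw [ht, sq_val_nden t r hrd, hA]
      exact val_mul_1728 h5 hN0
  have hnot3 : ∀ (r : ℕ) [Fact r.Prime], r ∣ N → ¬ 3 ∣ padicValNat r N →
      r % 12 = 1 ∧ p % 3 = 2 := by
    intro r hr h h3
    obtain ⟨h5, -, hrA, hval⟩ := hrN r h
    have h3 := htame r (by
        rw [hval]
        exact_mod_cast Nat.pos_of_ne_zero (dvd_iff_padicValNat_ne_zero hN0 |>.1 h))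
      (by rw [hval]; exact_mod_cast h3)
    exact ⟨r_cond r h5 (h3.2.2.2 h5) (leg_A t r h5 hrA), h3.1⟩
  refine ⟨w, c, N, hw0, Nat.pos_of_ne_zero hc0, hcw, hc6, hN, hjw, ?_, ?_, ?_, ?_, hss⟩
  · have c1 : IsCoprime (7 : ℤ) 11 := ⟨-3, 2, by norm_num⟩
    have c2 : IsCoprime (7 * 11 : ℤ) 19 := ⟨1, -4, by norm_num⟩
    have c3 : IsCoprime (7 * 11 * 19 : ℤ) 43 := by
      rw [Int.isCoprime_iff_gcd_eq_one]; decide
    have c4 : IsCoprime (7 * 11 * 19 * 43 : ℤ) 67 := by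
      rw [Int.isCoprime_iff_gcd_eq_one]; decide
    have c5 : IsCoprime (7 * 11 * 19 * 43 * 67 : ℤ) 163 := by
      rw [Int.isCoprime_iff_gcd_eq_one]; decide
    exact c5.mul_dvd (c4.mul_dvd (c3.mul_dvd (c2.mul_dvd (c1.mul_dvd d7 d11) d19) d43) d67) d163
  · intro r hr h
    have hrF : Fact r.Prime := ⟨hr⟩
    obtain ⟨h1, h2⟩ := hnc r h
    exact ⟨h1, den_cond (by linarith) h2⟩
  · intro r hr h
    have hrF : Fact r.Prime := ⟨hr⟩
    obtain ⟨h5, hrc, hrA, hval⟩ := hrN r h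
    rcases mod12_of r h5 (leg_A t r h5 hrA) with h1 | h7
    · exact Or.inl h1
    · right
      have h3 : 3 ∣ padicValNat r N := by
        by_contra hcon
        have h1 := (hnot3 r h hcon).1
        rw [h7] at h1
        norm_num at h1
      refine ⟨h7, h3, ?_⟩
      by_contra hlt
      have hlt' : 4 * r < p ^ 2 := lt_of_le_of_ne (not_lt.1 hlt) (ne_sq hp4)
      refine hss r h5 (mod4_of7 h7) hlt' hrc (cg_ordinary r h5 (mod3_of7 h7) E.j ?_)
      exact dvd_num_of_pos r E.j (by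
        rw [hval]
        exact_mod_cast Nat.pos_of_ne_zero (dvd_iff_padicValNat_ne_zero hN0 |>.1 h))
  · by_cases hp3 : p % 3 = 2
    · exact Or.inl hp3
    · right
      obtain ⟨y, hy⟩ := exists_pow N 3 hN0 (fun r hr => by
        have hrF : Fact r.Prime := ⟨hr⟩
        rw [Nat.factorization_def N hr]
        by_cases h : r ∣ N
        · by_contra hcon
          exact hp3 (hnot3 r h hcon).2
        · rw [padicValNat.eq_zero_of_not_dvd h]
          exact dvd_zero _)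
      refine ⟨?_, y, hy⟩
      rintro rfl
      rw [one_pow] at hN
      have := cube_eq y w.natAbs (by rw [← hy, hN])
      exact hw0 (Int.natAbs_eq_zero.1 this)

end Pool.Agent.H72.SQ
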